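import Pool.Agent.H624U.MA
import Pool.Agent.H624U.AA
import Pool.Agent.H624U.CB
import Pool.Agent.H624U.CT
import Pool.Agent.H624U.CV
import Pool.Agent.H624U.DR
import Pool.Agent.H624U.DT
import Pool.Agent.H624U.DU
import Pool.Agent.H624U.DX
import Pool.Agent.H624U.E1
import Pool.Agent.H624U.EX
import Pool.Agent.H624U.EY
import Pool.Agent.H624U.FA
import Pool.Agent.H624U.FN
import Pool.Agent.H624U.GD
import Pool.Agent.H624U.HY
import Pool.Agent.H624U.JU
import Pool.Agent.H624U.KS
import Pool.Agent.H624U.L0
import Pool.Agent.H624U.LD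
import Pool.Agent.H624U.LT
import Pool.Agent.H624U.MR
import Pool.Agent.H624U.MS
import Pool.Agent.H624U.MU
import Pool.Agent.H624U.PB
import Pool.Agent.H624U.SD
import Pool.Agent.H624U.SJ
import Pool.Agent.H624U.SM
import Pool.Agent.H624U.ST
import Pool.Agent.H624U.TI
import Pool.Agent.H624U.UC
import Pool.Agent.H624U.UE
import Pool.Agent.H624U.VJ
import Pool.Agent.H624U.VS
import Pool.Agent.H624U.VU
import Pool.Agent.H624U.Z3

/-!
# The chromatic number of the random graph process may jump without a uniquely k-colourable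
subgraph

Disproof, for every `k ≥ 3`, of the statement that almost surely the first graph of the random
graph process with chromatic number larger than `k` contains a uniquely `k`-colourable subgraph
other than a triangle.
-/

namespace Pool.Agent.Results.MP_73831e_pr.NoUniqueAtJump

open Pool.Agent.H624C Pool.Agent.H624U

theorem fin_thm : T_fin := by
  have huce := UE_thm
  have hucc := UC_thm huce
  have hjump := JU_thm hucc
  obtain ⟨hmpu, hmpu1⟩ := MU_thm
  obtain ⟨hdeg, hdiff⟩ := DX_thm EX_thm
  have hstep := ST_thm E1_thm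
  obtain ⟨hsmall, hlarge⟩ := SM_thm
  have hA := AA_thm hstep hsmall hlarge
  have hcovb := CB_thm hA hlarge
  have hmrg := MR_thm E1_thm hA hlarge hcovb
  have hVJ := VJ_thm DR_thm (SJ_thm HY_thm hdeg hdiff hmpu1)
  have hVU := VU_thm hdeg hmpu1
  have hmass := MS_thm hVJ hVU FA_thm (EY_thm huce) LT_thm SD_thm LD_thm L0_thm
  have hgood := GD_thm hmass hjump hmrg (KS_thm hmpu1)
  have hvis := VS_thm hgood (CT_thm hjump) (Z3_thm hjump) (DU_thm hmpu)
  exact FN_thm hvis PB_thm DT_thm TI_thm

/-- orderings of all pairs of vertices (edges of the complete graph on `Fin n`) -/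
abbrev Ordering (n : ℕ) := Fin (Nat.card (⊤ : SimpleGraph (Fin n)).edgeSet) ≃
  (⊤ : SimpleGraph (Fin n)).edgeSet

/-- the graph formed by the first `m` pairs of the ordering `σ` -/
def stage {n : ℕ} (σ : Ordering n) (m : ℕ) : SimpleGraph (Fin n) :=
  SimpleGraph.fromEdgeSet {e : Sym2 (Fin n) |
    ∃ i : Fin (Nat.card (⊤ : SimpleGraph (Fin n)).edgeSet), (i : ℕ) < m ∧ (σ i).val = e}

/-- `H` is uniquely `k`-colourable: its chromatic number is `k` and any two proper `k`-colourings
differ by a permutation of the colours -/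
def UniquelyColourable (k : ℕ) {W : Type} (H : SimpleGraph W) : Prop :=
  H.chromaticNumber = k ∧
    ∀ c c' : H.Coloring (Fin k), ∃ π : Equiv.Perm (Fin k), ∀ v, c' v = π (c v)

/-- `Γ` contains a uniquely `k`-colourable subgraph which is not a triangle -/
def ContainsUnique (k : ℕ) {W : Type} (Γ : SimpleGraph W) : Prop :=
  ∃ H : Γ.Subgraph, UniquelyColourable k H.coe ∧
    ¬ Nonempty (H.coe ≃g (⊤ : SimpleGraph (Fin 3)))

/-- for the ordering `σ`, the first stage which is not `k`-colourable contains no uniquely
`k`-colourable subgraph other than a triangle -/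
def NoUniqueAtJump (k : ℕ) {n : ℕ} (σ : Ordering n) : Prop :=
  ∃ m : ℕ, ¬ (stage σ m).Colorable k ∧ (∀ m' < m, (stage σ m').Colorable k) ∧
    ¬ ContainsUnique k (stage σ m)

/-- the probability of `NoUniqueAtJump` over a uniformly random ordering -/
noncomputable def prob (k n : ℕ) : ℝ :=
  (Nat.card {σ : Ordering n // NoUniqueAtJump k σ} : ℝ) / (Nat.card (Ordering n) : ℝ)

theorem prob_eq (k n : ℕ) : prob k n = probNoUC k n := rfl

/-- `prob k n` is the probability that in the random graph process on `Fin n` the first graph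
which is not `k`-colourable contains no uniquely `k`-colourable subgraph other than a triangle.
For every `k ≥ 3` it is bounded away from `0` for infinitely many `n`; it does not tend to `0`. -/
theorem result : ∀ k : ℕ, 3 ≤ k →
    (∃ γ : ℝ, 0 < γ ∧ ∃ᶠ n in Filter.atTop, γ ≤ prob k n) ∧
      ¬ Filter.Tendsto (prob k) Filter.atTop (nhds 0) := by
  intro k hk
  have h : prob k = probNoUC k := funext (fun n => prob_eq k n)
  rw [h]
  exact MA_tendsto (MA_thm fin_thm CV_thm) k hk

end Pool.Agent.Results.MP_73831e_pr.NoUniqueAtJump
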